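import Pool.Agent.Helper15.T5.Stmts

set_option autoImplicit false

open Finset

namespace Pool.Agent.Helper15.T5

open Pool.Agent.Helper15.T4 Pool.Agent.Helper46.T5

namespace Atl

/-! ### The coefficient -/

section Coeff

variable {E : Type} [Fintype E] [DecidableEq E]

/-- weights of the grid `{0, 1, 2}` -/
def cw (s : Fin 3) : ℚ := if s = 1 then -1 else 1 / 2

theorem cw_sum (j : ℕ) (hj : j < 2) : ∑ s : Fin 3, cw s * ((s : ℕ) : ℚ) ^ j = 0 := by
  rcases j with _ | _ | j
  · simp [Fin.sum_univ_three, cw]; norm_num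
  · simp [Fin.sum_univ_three, cw]
  · omega

theorem cw_two : ∑ s : Fin 3, cw s * ((s : ℕ) : ℚ) ^ 2 = 1 := by
  simp [Fin.sum_univ_three, cw]; norm_num

/-- the exponent `2` for all variables -/
noncomputable def tt (E : Type) [Fintype E] : E →₀ ℕ := Finsupp.equivFunOnFinite.symm (fun _ => 2)

theorem tt_apply (e : E) : tt E e = 2 := rfl

theorem lam_monomial (m : E →₀ ℕ) (hm : m.degree = 2 * Fintype.card E) :
    ∑ x : E → Fin 3, (∏ e, cw (x e)) * ∏ e, (((x e : Fin 3) : ℕ) : ℚ) ^ (m e) =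
      if m = tt E then 1 else 0 := by
  have h1 : ∑ x : E → Fin 3, (∏ e, cw (x e)) * ∏ e, (((x e : Fin 3) : ℕ) : ℚ) ^ (m e) =
      ∏ e : E, ∑ s : Fin 3, cw s * ((s : ℕ) : ℚ) ^ (m e) := by
    rw [Finset.prod_univ_sum, Fintype.piFinset_univ]
    exact Finset.sum_congr rfl (fun x _ => by rw [Finset.prod_mul_distrib])
  rw [h1]
  by_cases h2 : ∃ e, m e < 2
  · obtain ⟨e, he⟩ := h2
    rw [if_neg]
    · exact Finset.prod_eq_zero (Finset.mem_univ e) (cw_sum _ he)
    · rintro rfl
      rw [tt_apply] at he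
      omega
  · push Not at h2
    have h3 : ∀ e, m e = 2 := by
      by_contra hne
      push Not at hne
      obtain ⟨e, he⟩ := hne
      have h4 : ∑ e : E, 2 < ∑ e : E, m e :=
        Finset.sum_lt_sum (fun e _ => h2 e) ⟨e, Finset.mem_univ e, lt_of_le_of_ne (h2 e) he.symm⟩
      rw [Finsupp.degree_eq_sum] at hm
      rw [hm] at h4
      simp at h4
      omega
    rw [if_pos]
    · exact Finset.prod_eq_one (fun e _ => by rw [h3 e]; exact cw_two)
    · ext e
      rw [h3 e, tt_apply]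

theorem lam_coeff (G : MvPolynomial E ℚ) (hG : G.IsHomogeneous (2 * Fintype.card E)) :
    ∑ x : E → Fin 3, (∏ e, cw (x e)) * MvPolynomial.eval (fun e => (((x e : Fin 3) : ℕ) : ℚ)) G =
      G.coeff (tt E) := by
  have h1 : ∀ x : E → Fin 3, MvPolynomial.eval (fun e => (((x e : Fin 3) : ℕ) : ℚ)) G =
      ∑ m ∈ G.support, G.coeff m * ∏ e, (((x e : Fin 3) : ℕ) : ℚ) ^ (m e) := by
    intro x
    rw [MvPolynomial.eval_eq']
  simp_rw [h1, Finset.mul_sum]
  rw [Finset.sum_comm]
  have h2 : ∀ m ∈ G.support, ∑ x : E → Fin 3, (∏ e, cw (x e)) *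
      (G.coeff m * ∏ e, (((x e : Fin 3) : ℕ) : ℚ) ^ (m e)) =
      if m = tt E then G.coeff (tt E) else 0 := by
    intro m hm
    have hd : m.degree = 2 * Fintype.card E := by
      by_contra hne
      exact (MvPolynomial.mem_support_iff.1 hm) (hG.coeff_eq_zero hne)
    have h3 := lam_monomial m hd
    have h4 : ∑ x : E → Fin 3, (∏ e, cw (x e)) *
        (G.coeff m * ∏ e, (((x e : Fin 3) : ℕ) : ℚ) ^ (m e)) =
        G.coeff m * ∑ x : E → Fin 3, (∏ e, cw (x e)) *
          ∏ e, (((x e : Fin 3) : ℕ) : ℚ) ^ (m e) := by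
      rw [Finset.mul_sum]
      exact Finset.sum_congr rfl (fun x _ => by ring)
    rw [h4, h3]
    split_ifs with h5
    · rw [h5, mul_one]
    · rw [mul_zero]
  rw [Finset.sum_congr rfl h2, Finset.sum_ite_eq']
  split_ifs with h6
  · rfl
  · exact (MvPolynomial.notMem_support_iff.1 h6).symm

theorem vdm_eps (a b c : Fin 3) : (((b : ℕ) : ℚ) - (a : ℕ)) * (((c : ℕ) : ℚ) - (a : ℕ)) *
    (((c : ℕ) : ℚ) - (b : ℕ)) = 2 * ((eps a b c : ℤ) : ℚ) := by
  fin_cases a <;> fin_cases b <;> fin_cases c <;> simp [eps] <;> norm_num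

variable {n : ℕ} (eh : HE n → E)

/-- the graph polynomial of the line graph -/
noncomputable def FF : MvPolynomial E ℚ :=
  ∏ v : Fin n, ((MvPolynomial.X (eh (v, 1)) - MvPolynomial.X (eh (v, 0))) *
    (MvPolynomial.X (eh (v, 2)) - MvPolynomial.X (eh (v, 0))) *
    (MvPolynomial.X (eh (v, 2)) - MvPolynomial.X (eh (v, 1))))

theorem FF_hom : (FF eh).IsHomogeneous (3 * n) := by
  have h1 : ∀ v ∈ (univ : Finset (Fin n)), ((MvPolynomial.X (eh (v, 1)) - MvPolynomial.X (eh (v, 0))) *
    (MvPolynomial.X (eh (v, 2)) - MvPolynomial.X (eh (v, 0))) *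
    (MvPolynomial.X (eh (v, 2)) - MvPolynomial.X (eh (v, 1))) : MvPolynomial E ℚ).IsHomogeneous 3 := by
    intro v _
    have hx : ∀ e e' : E, (MvPolynomial.X e - MvPolynomial.X e' : MvPolynomial E ℚ).IsHomogeneous 1 :=
      fun e e' => (MvPolynomial.isHomogeneous_X _ _).sub (MvPolynomial.isHomogeneous_X _ _)
    exact ((hx _ _).mul (hx _ _)).mul (hx _ _)
  have h2 := MvPolynomial.IsHomogeneous.prod univ _ _ h1
  rw [Finset.sum_const, Finset.card_univ, Fintype.card_fin, smul_eq_mul, mul_comm n 3] at h2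
  exact h2

theorem FF_eval (x : E → Fin 3) :
    MvPolynomial.eval (fun e => (((x e : Fin 3) : ℕ) : ℚ)) (FF eh) =
      2 ^ n * ∏ v : Fin n, ((eps (x (eh (v, 0))) (x (eh (v, 1))) (x (eh (v, 2))) : ℤ) : ℚ) := by
  unfold FF
  rw [map_prod]
  have : ∀ v : Fin n, MvPolynomial.eval (fun e => (((x e : Fin 3) : ℕ) : ℚ))
      ((MvPolynomial.X (eh (v, 1)) - MvPolynomial.X (eh (v, 0))) *
    (MvPolynomial.X (eh (v, 2)) - MvPolynomial.X (eh (v, 0))) *
    (MvPolynomial.X (eh (v, 2)) - MvPolynomial.X (eh (v, 1)))) =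
      2 * ((eps (x (eh (v, 0))) (x (eh (v, 1))) (x (eh (v, 2))) : ℤ) : ℚ) := by
    intro v
    simp only [map_mul, map_sub, MvPolynomial.eval_X]
    exact vdm_eps _ _ _
  simp_rw [this]
  rw [Finset.prod_mul_distrib, Finset.prod_const, Finset.card_univ, Fintype.card_fin]

theorem eps_one (a b c : Fin 3) (h : eps a b c ≠ 0) :
    (if a = 1 then 1 else 0) + (if b = 1 then 1 else 0) + (if c = 1 then 1 else 0) = (1 : ℕ) := by
  revert h
  fin_cases a <;> fin_cases b <;> fin_cases c <;> simp [eps]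

variable (hf : ∀ e : E, (univ.filter (fun h : HE n => eh h = e)).card = 2)

include hf in
theorem card_E : 3 * n = 2 * Fintype.card E := by
  have h1 := Finset.card_eq_sum_card_fiberwise (s := (univ : Finset (HE n))) (t := (univ : Finset E))
    (f := eh) (fun _ _ => Finset.mem_univ _)
  simp_rw [hf] at h1
  rw [Finset.sum_const, Finset.card_univ, Finset.card_univ, Fintype.card_prod, Fintype.card_fin,
    Fintype.card_fin, smul_eq_mul] at h1
  omega

include hf in
theorem cw_prod (x : E → Fin 3)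
    (hx : (∏ v : Fin n, eps (x (eh (v, 0))) (x (eh (v, 1))) (x (eh (v, 2)))) ≠ 0) :
    ∏ e, cw (x e) = (-1) ^ (n / 2) * (1 / 2) ^ (Fintype.card E - n / 2) := by
  have h1 : ∏ e, cw (x e) = (-1) ^ (univ.filter (fun e => x e = 1)).card *
      (1 / 2) ^ (univ.filter (fun e => ¬ x e = 1)).card := by
    unfold cw
    rw [Finset.prod_ite, Finset.prod_const, Finset.prod_const]
  have h2 : 2 * (univ.filter (fun e => x e = 1)).card = n := by
    have h3 : ∑ h : HE n, (if x (eh h) = 1 then 1 else 0 : ℕ) = n := by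
      rw [Fintype.sum_prod_type]
      have h4 : ∀ v : Fin n, ∑ a : Fin 3, (if x (eh (v, a)) = 1 then 1 else 0 : ℕ) = 1 := by
        intro v
        rw [Fin.sum_univ_three]
        exact eps_one _ _ _ (Finset.prod_ne_zero_iff.1 hx v (Finset.mem_univ v))
      rw [Finset.sum_congr rfl (fun v _ => h4 v)]
      simp
    have h5 : ∑ h : HE n, (if x (eh h) = 1 then 1 else 0 : ℕ) =
        ∑ e : E, ∑ h ∈ univ.filter (fun h : HE n => eh h = e), (if x (eh h) = 1 then 1 else 0 : ℕ) :=
      (Finset.sum_fiberwise _ _ _).symm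
    have h6 : ∀ e : E, ∑ h ∈ univ.filter (fun h : HE n => eh h = e),
        (if x (eh h) = 1 then 1 else 0 : ℕ) = if x e = 1 then 2 else 0 := by
      intro e
      have : ∀ h ∈ univ.filter (fun h : HE n => eh h = e), (if x (eh h) = 1 then 1 else 0 : ℕ) =
          if x e = 1 then 1 else 0 := by
        intro h hh
        rw [(Finset.mem_filter.1 hh).2]
      rw [Finset.sum_congr rfl this, Finset.sum_const, hf e]
      split_ifs <;> simp
    rw [h5, Finset.sum_congr rfl (fun e _ => h6 e), ← Finset.sum_filter, Finset.sum_const] at h3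
    rw [smul_eq_mul] at h3
    omega
  have h7 : (univ.filter (fun e => x e = 1)).card + (univ.filter (fun e => ¬ x e = 1)).card =
      Fintype.card E := by
    rw [← Finset.card_univ]
    exact Finset.card_filter_add_card_filter_not _
  rw [h1]
  have h8 : (univ.filter (fun e => x e = 1)).card = n / 2 := by omega
  have h9 : (univ.filter (fun e => ¬ x e = 1)).card = Fintype.card E - n / 2 := by omega
  rw [h8, h9]

include hf in
theorem coeff_ne (hz : ∑ x : E → Fin 3, ∏ v : Fin n,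
    eps (x (eh (v, 0))) (x (eh (v, 1))) (x (eh (v, 2))) ≠ 0) : (FF eh).coeff (tt E) ≠ 0 := by
  have hh : (FF eh).IsHomogeneous (2 * Fintype.card E) := by
    rw [← card_E eh hf]
    exact FF_hom eh
  rw [← lam_coeff (FF eh) hh]
  have h1 : ∀ x : E → Fin 3, (∏ e, cw (x e)) *
      MvPolynomial.eval (fun e => (((x e : Fin 3) : ℕ) : ℚ)) (FF eh) =
      ((-1) ^ (n / 2) * (1 / 2) ^ (Fintype.card E - n / 2) * 2 ^ n) *
        ((∏ v : Fin n, eps (x (eh (v, 0))) (x (eh (v, 1))) (x (eh (v, 2))) : ℤ) : ℚ) := by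
    intro x
    rw [FF_eval]
    by_cases h0 : (∏ v : Fin n, eps (x (eh (v, 0))) (x (eh (v, 1))) (x (eh (v, 2)))) = 0
    · rw [h0, ← Int.cast_prod, h0]
      simp
    · rw [cw_prod eh hf x h0]
      push_cast
      ring
  rw [Finset.sum_congr rfl (fun x _ => h1 x), ← Finset.mul_sum, ← Int.cast_sum]
  apply mul_ne_zero
  · apply mul_ne_zero
    · apply mul_ne_zero
      · exact pow_ne_zero _ (by norm_num)
      · exact pow_ne_zero _ (by norm_num)
    · exact pow_ne_zero _ (by norm_num)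
  · exact_mod_cast hz

include hf in
/-- the choice of the colours -/
theorem choice (hz : ∑ x : E → Fin 3, ∏ v : Fin n,
    eps (x (eh (v, 0))) (x (eh (v, 1))) (x (eh (v, 2))) ≠ 0) (L : E → Finset ℕ)
    (hL : ∀ e, 3 ≤ (L e).card) :
    ∃ f : E → ℕ, (∀ e, f e ∈ L e) ∧ ∀ (v : Fin n) (a b : Fin 3), a ≠ b →
      f (eh (v, a)) ≠ f (eh (v, b)) := by
  have h1 := coeff_ne eh hf hz
  have hne : FF eh ≠ 0 := by
    intro h0
    rw [h0] at h1
    exact h1 (MvPolynomial.coeff_zero _)
  have hdeg : (FF eh).totalDegree = (tt E).degree := by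
    rw [(FF_hom eh).totalDegree hne, card_E eh hf, Finsupp.degree_eq_sum]
    simp [tt_apply, mul_comm]
  obtain ⟨s, hs1, hs2⟩ := MvPolynomial.combinatorial_nullstellensatz_exists_eval_nonzero (FF eh)
    (tt E) h1 hdeg (fun e => (L e).image (fun k : ℕ => (k : ℚ))) (fun e => by
      rw [tt_apply, Finset.card_image_of_injective _ Nat.cast_injective]
      have := hL e
      omega)
  have h2 : ∀ e, ∃ k : ℕ, k ∈ L e ∧ (k : ℚ) = s e := fun e => by
    have := hs1 e
    rw [Finset.mem_image] at this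
    exact this
  choose f hfm hfs using h2
  refine ⟨f, hfm, ?_⟩
  unfold FF at hs2
  rw [map_prod] at hs2
  have h3 : ∀ v : Fin n, f (eh (v, 0)) ≠ f (eh (v, 1)) ∧ f (eh (v, 0)) ≠ f (eh (v, 2)) ∧
      f (eh (v, 1)) ≠ f (eh (v, 2)) := by
    intro v
    have h4 := Finset.prod_ne_zero_iff.1 hs2 v (Finset.mem_univ v)
    simp only [map_mul, map_sub, MvPolynomial.eval_X] at h4
    rw [← hfs (eh (v, 0)), ← hfs (eh (v, 1)), ← hfs (eh (v, 2))] at h4
    refine ⟨?_, ?_, ?_⟩
    · intro h
      apply h4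
      rw [h, sub_self]
      ring
    · intro h
      apply h4
      rw [h, sub_self]
      ring
    · intro h
      apply h4
      rw [h, sub_self]
      ring
  intro v a b hab
  obtain ⟨p1, p2, p3⟩ := h3 v
  fin_cases a <;> fin_cases b
  · exact absurd rfl hab
  · exact p1
  · exact p2
  · exact p1.symm
  · exact absurd rfl hab
  · exact p3
  · exact p2.symm
  · exact p3.symm
  · exact absurd rfl hab

end Coeff

/-! ### The graph of a pairing -/

section Graph

open Classical in
theorem link (n : ℕ) (M : Finset (Sym2 (HE n))) (hM : M ∈ PM (univ : Finset (HE n)))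
    (hC : Cubic 3 (Gr M)) : ∃ eh : HE n → (Gr M).edgeSet,
      (∀ e, (univ.filter (fun h : HE n => eh h = e)).card = 2) ∧
      (∀ (v : Fin n) (e : (Gr M).edgeSet), v ∈ (e : Sym2 (Fin n)) → ∃ a, eh (v, a) = e) ∧
      Zc M = ∑ x : (Gr M).edgeSet → Fin 3, ∏ v : Fin n,
        eps (x (eh (v, 0))) (x (eh (v, 1))) (x (eh (v, 2))) := by
  obtain ⟨m1, -, m3⟩ : IsPM (univ : Finset (HE n)) M := (Finset.mem_filter.1 hM).2
  have hp : ∀ h : HE n, ∃ h', s(h, h') ∈ M ∧ h' ≠ h := by
    intro h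
    obtain ⟨e, ⟨he1, he2⟩, -⟩ := m3 h (Finset.mem_univ h)
    obtain ⟨h', rfl⟩ := Sym2.mem_iff_exists.1 he2
    refine ⟨h', he1, fun hh => m1 _ he1 ?_⟩
    rw [hh]
    exact Sym2.mk_isDiag_iff.2 rfl
  choose p hp1 hp2 using hp
  have hu : ∀ h h', s(h, h') ∈ M → h' = p h := by
    intro h h' hh
    obtain ⟨e, -, he⟩ := m3 h (Finset.mem_univ h)
    have h1 := he _ ⟨hh, Sym2.mem_mk_left _ _⟩
    have h2 := he _ ⟨hp1 h, Sym2.mem_mk_left _ _⟩
    exact Sym2.congr_right.1 (h1.trans h2.symm)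
  have hpp : ∀ h, p (p h) = h := fun h => (hu (p h) h (by rw [Sym2.eq_swap]; exact hp1 h)).symm
  have hg : ∀ v : Fin n, Function.Injective (fun a : Fin 3 => (p (v, a)).1) ∧
      ∀ a : Fin 3, (p (v, a)).1 ≠ v := by
    intro v
    have h3 := hC.1 v
    have hsub : {w | (Gr M).Adj v w} ⊆
        (((univ : Finset (Fin 3)).image (fun a => (p (v, a)).1)).erase v : Finset (Fin n)) := by
      rintro w ⟨hw1, a, b, hw2⟩
      rw [Finset.mem_coe, Finset.mem_erase]
      refine ⟨hw1.symm, Finset.mem_image.2 ⟨a, Finset.mem_univ a, ?_⟩⟩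
      rw [← hu _ _ hw2]
    have h4 : 3 ≤ (((univ : Finset (Fin 3)).image (fun a => (p (v, a)).1)).erase v).card := by
      have h0 := Set.ncard_le_ncard hsub (Finset.finite_toSet _)
      rw [Set.ncard_coe_finset] at h0
      exact le_trans (le_of_eq h3.symm) h0
    have h5 : ((univ : Finset (Fin 3)).image (fun a => (p (v, a)).1)).card ≤ 3 :=
      Finset.card_image_le.trans (by simp)
    have h6 := Finset.card_erase_le (s := (univ : Finset (Fin 3)).image (fun a => (p (v, a)).1))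
      (a := v)
    constructor
    · have h7 : ((univ : Finset (Fin 3)).image (fun a => (p (v, a)).1)).card =
          (univ : Finset (Fin 3)).card := by
        rw [Finset.card_univ, Fintype.card_fin]
        omega
      have h8 := Finset.card_image_iff.1 h7
      intro a b hab
      exact h8 (Finset.mem_coe.2 (Finset.mem_univ a)) (Finset.mem_coe.2 (Finset.mem_univ b)) hab
    · intro a ha
      have h9 : v ∈ (univ : Finset (Fin 3)).image (fun a => (p (v, a)).1) :=
        Finset.mem_image.2 ⟨a, Finset.mem_univ a, ha⟩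
      rw [Finset.card_erase_of_mem h9] at h4
      omega
  have hadj : ∀ h : HE n, (Gr M).Adj h.1 (p h).1 := fun h =>
    ⟨((hg h.1).2 h.2).symm, h.2, (p h).2, hp1 h⟩
  have hfib : ∀ (v w : Fin n) (a b : Fin 3), p (v, a) = (w, b) → ∀ h : HE n,
      s(h.1, (p h).1) = s(v, w) ↔ h = (v, a) ∨ h = (w, b) := by
    intro v w a b hab h
    have hba : p (w, b) = (v, a) := by rw [← hab, hpp]
    constructor
    · intro h1
      rcases Sym2.eq_iff.1 h1 with ⟨h2, h3⟩ | ⟨h2, h3⟩
      · left
        have h4 : (p (v, h.2)).1 = (p (v, a)).1 := by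
          rw [hab, ← h2]
          exact h3
        have h5 := (hg v).1 h4
        exact Prod.ext h2 h5
      · right
        have h4 : (p (w, h.2)).1 = (p (w, b)).1 := by
          rw [hba, ← h2]
          exact h3
        have h5 := (hg w).1 h4
        exact Prod.ext h2 h5
    · rintro (rfl | rfl)
      · rw [hab]
      · rw [hba, Sym2.eq_swap]
  let eh : HE n → (Gr M).edgeSet := fun h => ⟨s(h.1, (p h).1), (SimpleGraph.mem_edgeSet _).2 (hadj h)⟩
  have hkey : ∀ e : (Gr M).edgeSet, ∃ (v w : Fin n) (a b : Fin 3), (e : Sym2 (Fin n)) = s(v, w) ∧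
      v ≠ w ∧ p (v, a) = (w, b) := by
    rintro ⟨e, he⟩
    induction e using Sym2.ind with
    | _ v w =>
      obtain ⟨h1, a, b, h2⟩ := (SimpleGraph.mem_edgeSet _).1 he
      exact ⟨v, w, a, b, rfl, h1, (hu _ _ h2).symm⟩
  have heh : ∀ (h : HE n) (e : (Gr M).edgeSet) (v w : Fin n) (a b : Fin 3),
      (e : Sym2 (Fin n)) = s(v, w) → p (v, a) = (w, b) → (eh h = e ↔ h = (v, a) ∨ h = (w, b)) := by
    intro h e v w a b he hab
    rw [← hfib v w a b hab h, ← he]
    exact Subtype.ext_iff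
  have hmem : ∀ (v : Fin n) (e : (Gr M).edgeSet), v ∈ (e : Sym2 (Fin n)) → ∃ a, eh (v, a) = e := by
    intro v e hv
    obtain ⟨v', w', a, b, he, -, hab⟩ := hkey e
    rw [he, Sym2.mem_iff] at hv
    rcases hv with rfl | rfl
    · exact ⟨a, (heh _ e _ _ a b he hab).2 (Or.inl rfl)⟩
    · exact ⟨b, (heh _ e _ _ a b he hab).2 (Or.inr rfl)⟩
  have hpe : ∀ h, eh (p h) = eh h := by
    intro h
    apply Subtype.ext
    change s((p h).1, (p (p h)).1) = s(h.1, (p h).1)
    rw [hpp, Sym2.eq_swap]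
  have hee : ∀ h h', eh h = eh h' → h = h' ∨ h = p h' := by
    intro h h' hh
    have := (heh h (eh h') h'.1 (p h').1 h'.2 (p h').2 rfl rfl).1 hh
    exact this
  refine ⟨eh, ?_, hmem, ?_⟩
  · intro e
    obtain ⟨v, w, a, b, he, hvw, hab⟩ := hkey e
    have h1 : univ.filter (fun h : HE n => eh h = e) = {(v, a), (w, b)} := by
      ext h
      rw [Finset.mem_filter, Finset.mem_insert, Finset.mem_singleton]
      constructor
      · rintro ⟨-, h2⟩
        exact (heh h e v w a b he hab).1 h2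
      · intro h2
        exact ⟨Finset.mem_univ h, (heh h e v w a b he hab).2 h2⟩
    rw [h1]
    apply Finset.card_pair
    intro h2
    exact hvw (congrArg Prod.fst h2)
  · have hsurj : Function.Surjective eh := by
      intro e
      obtain ⟨v, w, a, b, he, -, hab⟩ := hkey e
      exact ⟨(v, a), (heh _ e v w a b he hab).2 (Or.inl rfl)⟩
    unfold Zc
    symm
    apply Finset.sum_bij (fun (x : (Gr M).edgeSet → Fin 3) _ => fun h => x (eh h))
    · intro x _
      rw [Finset.mem_filter]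
      refine ⟨Finset.mem_univ _, fun h h' hh => ?_⟩
      rw [hu h h' hh]
      change x (eh h) = x (eh (p h))
      rw [hpe]
    · intro x _ y _ hxy
      funext e
      obtain ⟨h, rfl⟩ := hsurj e
      exact congrFun hxy h
    · intro σ hσ
      have h1 := (Finset.mem_filter.1 hσ).2
      choose r hr using hsurj
      refine ⟨fun e => σ (r e), Finset.mem_univ _, ?_⟩
      funext h
      rcases hee _ _ (hr (eh h)) with h2 | h2
      · change σ (r (eh h)) = σ h
        rw [h2]
      · change σ (r (eh h)) = σ h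
        rw [h2]
        exact (h1 h (p h) (hp1 h)).symm
    · intro x _
      rfl

end Graph

end Atl

/-- ATL: the Alon-Tarsi link. -/
theorem st_ATL : ST_ATL := by
  classical
  intro n M hM hC hz L hL
  obtain ⟨eh, h1, h2, h3⟩ := Atl.link n M hM hC
  rw [h3] at hz
  obtain ⟨f, hf1, hf2⟩ := Atl.choice eh (fun e => by
    have := h1 e
    exact this) hz L hL
  refine ⟨f, hf1, ?_⟩
  intro e e' hee
  obtain ⟨hne, v, hv1, hv2⟩ := hee
  obtain ⟨a, ha⟩ := h2 v e hv1
  obtain ⟨b, hb⟩ := h2 v e' hv2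
  have hab : a ≠ b := by
    rintro rfl
    exact hne (ha.symm.trans hb)
  rw [← ha, ← hb]
  exact hf2 v a b hab

end Pool.Agent.Helper15.T5
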