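import Pool.Agent.Helper15.T5.Stmts

set_option autoImplicit false

open Finset Filter Topology

namespace Pool.Agent.Helper15.T5

open Pool.Agent.Helper15.T4 Pool.Agent.Helper46.T5

/-- The final statement from MAIN5 and WRAP. -/
theorem final (hM : ST_MAIN5) (hW : ST_WRAP) : ∀ g : ℕ, 3 ≤ g → Filter.Tendsto (fun N : ℕ =>
    (Set.ncard {G : SimpleGraph (Fin (2 * N)) |
      ((∀ v, Set.ncard (G.neighborSet v) = 3) ∧
        ∀ (u : Fin (2 * N)) (p : G.Walk u u), p.IsCycle → g ≤ p.length) ∧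
      ∀ k : ℕ, (G.lineGraph.Colorable k ↔ 3 ≤ k) ∧
        ((∀ L : G.edgeSet → Finset ℕ, (∀ e, k ≤ (L e).card) →
          ∃ f : G.edgeSet → ℕ, (∀ e, f e ∈ L e) ∧ ∀ e e', G.lineGraph.Adj e e' → f e ≠ f e') ↔
            3 ≤ k)} : ℝ) /
    (Set.ncard {G : SimpleGraph (Fin (2 * N)) |
      (∀ v, Set.ncard (G.neighborSet v) = 3) ∧
        ∀ (u : Fin (2 * N)) (p : G.Walk u u), p.IsCycle → g ≤ p.length} : ℝ))
    Filter.atTop (nhds 1) := by
  intro g hg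
  refine (hM g hg).congr' ?_
  filter_upwards [Filter.eventually_ge_atTop 1] with N hN
  have hne : Nonempty (Fin (2 * N)) := ⟨⟨0, by omega⟩⟩
  have hset : {G : SimpleGraph (Fin (2 * N)) | Cubic g G ∧ Ch3 G} =
      {G : SimpleGraph (Fin (2 * N)) |
      ((∀ v, Set.ncard (G.neighborSet v) = 3) ∧
        ∀ (u : Fin (2 * N)) (p : G.Walk u u), p.IsCycle → g ≤ p.length) ∧
      ∀ k : ℕ, (G.lineGraph.Colorable k ↔ 3 ≤ k) ∧
        ((∀ L : G.edgeSet → Finset ℕ, (∀ e, k ≤ (L e).card) →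
          ∃ f : G.edgeSet → ℕ, (∀ e, f e ∈ L e) ∧ ∀ e e', G.lineGraph.Adj e e' → f e ≠ f e') ↔
            3 ≤ k)} := by
    ext G
    constructor
    · rintro ⟨h1, h2⟩
      exact ⟨h1, hW (Fin (2 * N)) g G h1 h2⟩
    · rintro ⟨h1, h2⟩
      exact ⟨h1, (h2 3).2.2 le_rfl⟩
  rw [hset]
  rfl

end Pool.Agent.Helper15.T5
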