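import Pool.Agent.Helper15.T4.Stmts
import Pool.Agent.Helper46.T5.Stmts

set_option autoImplicit false

/-!
MP_2f9829_co: almost all cubic graphs are 3-edge-choosable. Statements of the reduction layer: the
replica model, the tilted laws, the moments on the cycle classes, the end of the proof, the
Alon-Tarsi link and the main theorem.
-/

open Finset MeasureTheory Filter Topology

namespace Pool.Agent.Helper15.T5

open Pool.Agent.Helper15.T4 Pool.Agent.Helper46.T5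

/-! ### The signed number of edge colourings -/

open Classical in
/-- The signed number of the 3-edge-colourings of a pairing. -/
noncomputable def Zc {n : ℕ} (M : Finset (Sym2 (HE n))) : ℤ :=
  ∑ σ ∈ (univ : Finset (HE n → Fin 3)).filter (fun σ => ∀ h h' : HE n, s(h, h') ∈ M → σ h = σ h'),
    ∏ v, eps (σ (v, 0)) (σ (v, 1)) (σ (v, 2))

/-- XZ: the total weight of the replica model is a power of `Zc`. -/
def ST_XZ : Prop := ∀ (J : Type) [Fintype J] [DecidableEq J] (n : ℕ) (M : Finset (Sym2 (HE n))),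
  (mJ J).X M = ((Zc M : ℤ) : ℂ) ^ (Fintype.card J)

/-- MJ: the replica model in terms of the real trilinear form. `R x a b` is real and
`∑ b, R x a b * x b` is the polar form. -/
def ST_MJ : Prop := ∀ (J : Type) [Fintype J] [DecidableEq J],
  (Even (Fintype.card J) → (mJ J).Symm) ∧ (mJ J).AM = 1 ∧
  (∀ x y z, (mJ J).T x y z = ((TJ J x y z : ℝ) : ℂ)) ∧
  ∀ x a b, (mJ J).R x a b = ((∑ c, (∏ j, ((eps (a j) (b j) (c j) : ℤ) : ℝ)) * x c : ℝ) : ℂ)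

/-- ZM (from XZ, MJ, SUMX, PSI0): the even moments of `Zc` as Gaussian integrals. -/
def ST_ZM : Prop := ∀ (K n : ℕ),
  (∑ M ∈ PM (univ : Finset (HE n)), ((Zc M : ℤ) : ℝ) ^ (2 * K)) =
    (2 * Real.pi) ^ (-(Fintype.card (Fin K × Fin 2 → Fin 3) : ℝ) / 2) *
      ∫ x : (Fin K × Fin 2 → Fin 3) → ℝ, TJ (Fin K × Fin 2) x x x ^ n * Real.exp (-(nsq x) / 2)

/-! ### Homogeneous functions and Gaussian integrals -/

/-- HOM: radial moments of homogeneous functions of degree `0`. -/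
def ST_HOM : Prop := ∀ (ι : Type) [Fintype ι] (g : (ι → ℝ) → ℝ) (C : ℝ), Measurable g →
  (∀ x, |g x| ≤ C) → (∀ (s : ℝ) (x : ι → ℝ), 0 < s → g (s • x) = g x) → ∀ k : ℕ,
  ∫ x : ι → ℝ, g x * nsq x ^ k * Real.exp (-(nsq x) / 2) =
    (∏ j ∈ range k, ((Fintype.card ι : ℝ) + 2 * j)) * ∫ x : ι → ℝ, g x * Real.exp (-(nsq x) / 2)

/-- LGC: the powers of a function with supremum `1`. -/
def ST_LGC : Prop := ∀ (X : Type) [MeasurableSpace X] (μ : Measure X) [IsFiniteMeasure μ]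
  (p : X → ℝ), Measurable p → (∀ x, 0 ≤ p x) → (∀ x, p x ≤ 1) →
  (∀ δ : ℝ, 0 < δ → μ {x | 1 - δ < p x} ≠ 0) →
  (∀ n : ℕ, 0 < ∫ x, p x ^ n ∂μ) ∧
  (∀ v : ℕ, Tendsto (fun n : ℕ => (∫ x, p x ^ (n - v) ∂μ) / ∫ x, p x ^ n ∂μ) atTop (𝓝 1)) ∧
  ∀ (δ : ℝ) (v : ℕ), 0 < δ → δ < 1 →
    Tendsto (fun n : ℕ => (1 - δ) ^ (n - v) / ∫ x, p x ^ n ∂μ) atTop (𝓝 0)

/-- The hypotheses of the soft Laplace method: a cubic form with maximum `q` on the unit sphere. -/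
structure MaxQ {ι : Type} [Fintype ι] (P : (ι → ℝ) → ℝ) (q : ℝ) : Prop where
  cont : Continuous P
  hom : ∀ (s : ℝ) (x : ι → ℝ), P (s • x) = s ^ 3 * P x
  q0 : 0 < q
  le : ∀ x, |P x| ≤ q * Real.sqrt (nsq x) ^ 3
  att : ∃ x, nsq x = 1 ∧ |P x| = q

/-- SOFT (from HOM, LGC): ratios of Gaussian moments. -/
def ST_SOFT : Prop := ∀ (ι : Type) [Fintype ι] (P : (ι → ℝ) → ℝ) (q : ℝ), MaxQ P q →
  ∀ (v f : ℕ) (Φ : (ι → ℝ) → ℝ) (c : ℝ), 2 * f ≤ 3 * v → Continuous Φ →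
  (∀ (s : ℝ) (x : ι → ℝ), Φ (s • x) = s ^ (3 * v - 2 * f) * Φ x) →
  (∀ x, nsq x = 1 → |P x| = q → Φ x = c * P x ^ v) →
  Tendsto (fun N : ℕ => (∫ x : ι → ℝ, P x ^ (2 * N - v) * Φ x * Real.exp (-(nsq x) / 2)) *
    (6 * (N : ℝ)) ^ f / ∫ x : ι → ℝ, P x ^ (2 * N) * Real.exp (-(nsq x) / 2)) atTop (𝓝 c)

/-- SOFB (from HOM, LGC): bound for the absolute moments. -/
def ST_SOFB : Prop := ∀ (ι : Type) [Fintype ι] (P : (ι → ℝ) → ℝ) (q : ℝ), MaxQ P q →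
  (∀ N : ℕ, 0 < ∫ x : ι → ℝ, P x ^ (2 * N) * Real.exp (-(nsq x) / 2)) ∧
  ∀ v f : ℕ, 2 * f ≤ 3 * v → ∃ C : ℝ, ∀ᶠ N : ℕ in atTop,
  (∫ x : ι → ℝ, |P x| ^ (2 * N - v) * Real.sqrt (nsq x) ^ (3 * v - 2 * f) *
    Real.exp (-(nsq x) / 2)) * (6 * (N : ℝ)) ^ f ≤
      C * ∫ x : ι → ℝ, P x ^ (2 * N) * Real.exp (-(nsq x) / 2)

/-- TRP: the powers of the vertex matrix at the products. -/
def ST_TRP : Prop := ∀ (K : ℕ) (J : Type) [Fintype J] [DecidableEq J] (φ : Fin K × Fin 2 ≃ J)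
  (O : Fin K → M3), (∀ p, SO3 (O p)) → ∀ k : ℕ,
  (((mJ J).R (pt φ O)) ^ (k + 1)).trace = (((qq ^ K) ^ (k + 1) * tau5 k ^ K : ℝ) : ℂ)

/-- PQ (from PMAXR, UNIQ, PTV, TRP, CAY, MJ): the vertex polynomial and the vertex matrix at the
maximum. -/
def ST_PQ : Prop := ∀ K : ℕ,
  MaxQ (fun x : (Fin K × Fin 2 → Fin 3) → ℝ => TJ (Fin K × Fin 2) x x x) (qq ^ K) ∧
  ∀ x : (Fin K × Fin 2 → Fin 3) → ℝ, nsq x = 1 → |TJ (Fin K × Fin 2) x x x| = qq ^ K →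
    ∀ k : ℕ, (((mJ (Fin K × Fin 2)).R x) ^ (k + 1)).trace =
      ((TJ (Fin K × Fin 2) x x x ^ (k + 1) * tau5 k ^ K : ℝ) : ℂ)

/-! ### The tilted laws -/

/-- The law with density proportional to `Zc ^ (2 K)`. -/
noncomputable def WK (K : ℕ) (N : ℕ) (M : Finset (Sym2 (HE (2 * N)))) : ℝ :=
  ((Zc M : ℤ) : ℝ) ^ (2 * K) / ∑ M' ∈ PM (univ : Finset (HE (2 * N))), ((Zc M' : ℤ) : ℝ) ^ (2 * K)

/-- TLC (from SUMX, PSIC, STRU, XZ, MJ, ZM, PQ, SOFT, SOFB): cycles of the tilted law. -/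
def ST_TLC : Prop := ∀ (K : ℕ) (I : Type) [Fintype I] [DecidableEq I] (κ : I → ℕ), ∃ ρ : ℕ → ℝ,
  Tendsto (fun N : ℕ => ρ N * (2 * (N : ℝ)) ^ (∑ i, (κ i + 1))) atTop
    (𝓝 (∏ i, tau5 (κ i) ^ K / 3 ^ (κ i + 1))) ∧
  ∀ᶠ N in atTop, ∀ c : (i : I) → CycD (2 * N) (κ i), DisjFam c → mass (WK K N) (EU c) = ρ N

/-- TLB (from SUMX, PSIB, STR, XZ, MJ, ZM, PQ, SOFB): masses of the tilted law. -/
def ST_TLB : Prop := ∀ K f : ℕ, ∃ C : ℝ, ∀ᶠ N in atTop, ∀ F : Finset (Sym2 (HE (2 * N))), IsMat F →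
  F.card = f → mass (WK K N) F ≤ C / (2 * (N : ℝ)) ^ f

/-- TL (from TLC, TLB, ZM, PQ, SOFB): the tilted law. -/
def ST_TL : Prop := ∀ K : ℕ, Good (WK K) (fun k => tau5 k ^ K)

/-- SERT: the cycle factors. -/
def ST_SERT : Prop := tau5 0 = 0 ∧ (∀ k : ℕ, 1 ≤ k → 0 < tau5 k) ∧
  ∀ K : ℕ, Summable (fun k : ℕ => lam k * (tau5 k ^ K - 1 - K * (tau5 k - 1)))

/-- ZTOT (from TOT, XZ, SUMX, PSI0, ASY, PK0, GSS, XC): all even moments. -/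
def ST_ZTOT : Prop := ∀ K : ℕ, Tendsto (fun N : ℕ =>
  (∑ M ∈ PM (univ : Finset (HE (2 * N))), ((Zc M : ℤ) : ℝ) ^ (2 * K)) /
    (((PM (univ : Finset (HE (2 * N)))).card : ℝ) * sN N ^ K)) atTop (𝓝 (mom K))

open Classical in
/-- CM (from TL, POI, SERT, ZTOT, SOFB, ZM, PQ): the moments on the cycle classes. -/
def ST_CM : Prop := ∀ (K m : ℕ) (z : Fin m → ℕ), Tendsto (fun N : ℕ =>
  (∑ M ∈ (PM (univ : Finset (HE (2 * N)))).filter (fun M => (fun k : Fin m => Zs m k M) = z),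
    (((Zc M : ℤ) : ℝ) ^ 2 / sN N) ^ K) / ((PM (univ : Finset (HE (2 * N)))).card : ℝ)) atTop
    (𝓝 (mom K * ∏ k : Fin m, po (lam k * tau5 k ^ K) (z k)))

/-! ### The end -/

/-- HPOL: nonnegative polynomials with value `1` at `0` and small Gaussian mean. -/
def ST_HPOL : Prop := ∀ ε : ℝ, 0 < ε → ∃ f : Polynomial ℝ, (∀ y : ℝ, 0 ≤ y → 0 ≤ f.eval y) ∧
  f.eval 0 = 1 ∧ ∑ K ∈ range (f.natDegree + 1), f.coeff K * df K ≤ ε

open Classical in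
/-- END (from HPOL): the abstract form of the method. -/
def ST_END : Prop := ∀ (A : ℕ → Type) (S G : (N : ℕ) → Finset (A N)) (Y : (N : ℕ) → A N → ℝ)
  (Z : (N m : ℕ) → A N → Fin m → ℕ) (l t : ℕ → ℝ) (g : ℕ),
  (∀ k, 0 < l k) → (∀ k, g ≤ k → 0 < t k) →
  (∀ K : ℕ, Summable (fun k : ℕ => l k * (t k ^ K - 1 - K * (t k - 1)))) →
  (∀ᶠ N in atTop, 0 < (S N).card) → (∀ N x, 0 ≤ Y N x) →
  (∀ (K m : ℕ) (z : Fin m → ℕ), Tendsto (fun N =>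
    (∑ x ∈ (S N).filter (fun x => Z N m x = z), Y N x ^ K) / ((S N).card : ℝ)) atTop
    (𝓝 (df K * Real.exp (∑' k : ℕ, l k * (t k ^ K - 1 - K * (t k - 1))) *
      ∏ k : Fin m, po (l k * t k ^ K) (z k)))) →
  (∀ N, G N ⊆ S N) → (∀ N m, ∀ x ∈ G N, ∀ k : Fin m, (k : ℕ) < g → Z N m x k = 0) →
  Tendsto (fun N => (((G N).filter (fun x => Y N x = 0)).card : ℝ) / ((S N).card : ℝ)) atTop (𝓝 0)

/-! ### Graphs -/

/-- Edge-choosability with lists of three colours. -/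
def Ch3 {V : Type} (G : SimpleGraph V) : Prop :=
  ∀ L : G.edgeSet → Finset ℕ, (∀ e, 3 ≤ (L e).card) →
    ∃ f : G.edgeSet → ℕ, (∀ e, f e ∈ L e) ∧ ∀ e e', G.lineGraph.Adj e e' → f e ≠ f e'

/-- ATL: the Alon-Tarsi link. -/
def ST_ATL : Prop := ∀ (n : ℕ) (M : Finset (Sym2 (HE n))), M ∈ PM (univ : Finset (HE n)) →
  Cubic 3 (Gr M) → Zc M ≠ 0 → Ch3 (Gr M)

/-- MAIN5 (from END, CM, SERT, POSG, FIBG, GIR1, GIR2, ATL): almost all cubic graphs of girth at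
least `g` are 3-edge-choosable. -/
def ST_MAIN5 : Prop := ∀ g : ℕ, 3 ≤ g → Tendsto (fun N : ℕ =>
  (Set.ncard {G : SimpleGraph (Fin (2 * N)) | Cubic g G ∧ Ch3 G} : ℝ) /
    (Set.ncard {G : SimpleGraph (Fin (2 * N)) | Cubic g G} : ℝ)) atTop (𝓝 1)

/-- WRAP: the conjecture for one graph. -/
def ST_WRAP : Prop := ∀ (V : Type) [Fintype V] [Nonempty V] (g : ℕ) (G : SimpleGraph V),
  Cubic g G → Ch3 G → ∀ k : ℕ, (G.lineGraph.Colorable k ↔ 3 ≤ k) ∧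
    ((∀ L : G.edgeSet → Finset ℕ, (∀ e, k ≤ (L e).card) →
      ∃ f : G.edgeSet → ℕ, (∀ e, f e ∈ L e) ∧ ∀ e e', G.lineGraph.Adj e e' → f e ≠ f e') ↔ 3 ≤ k)

end Pool.Agent.Helper15.T5
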